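import Pool.Agent.H250R3.Berg.Stmts

set_option autoImplicit false

open Polynomial MeasureTheory intervalIntegral
open scoped ComplexConjugate

namespace Pool.Agent.H352.Berg

open Pool.Agent.H250R3.Berg

/-- the triangle identity for homogeneous functions of degree `d` -/
def HP (d : ℕ) (f : ℝ → ℝ → ℂ) : Prop :=
  Continuous (Function.uncurry f) ∧
  ((d : ℂ) + 2) * ∫ x in (0 : ℝ)..1, ∫ y in (0 : ℝ)..(1 - x), f x y =
    ∫ s in (0 : ℝ)..1, f (1 - s) s

lemma cont_row {f : ℝ → ℝ → ℂ} (hf : Continuous (Function.uncurry f)) (x : ℝ) :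
    Continuous (f x) := by
  have h : f x = Function.uncurry f ∘ (fun y => (x, y)) := by
    ext y; rfl
  rw [h]
  exact hf.comp (by fun_prop)

lemma cont_diag {f : ℝ → ℝ → ℂ} (hf : Continuous (Function.uncurry f)) :
    Continuous (fun s : ℝ => f (1 - s) s) := by
  have h : (fun s : ℝ => f (1 - s) s) = Function.uncurry f ∘ (fun s => (1 - s, s)) := by
    ext y; rfl
  rw [h]
  exact hf.comp (by fun_prop)

lemma cont_inner {f : ℝ → ℝ → ℂ} (hf : Continuous (Function.uncurry f)) :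
    Continuous (fun x : ℝ => ∫ y in (0 : ℝ)..(1 - x), f x y) :=
  continuous_parametric_intervalIntegral_of_continuous hf (by fun_prop)

lemma HP.add {d : ℕ} {f g : ℝ → ℝ → ℂ} (hf : HP d f) (hg : HP d g) :
    HP d (fun x y => f x y + g x y) := by
  refine ⟨?_, ?_⟩
  · have : Function.uncurry (fun x y => f x y + g x y) =
        fun p => Function.uncurry f p + Function.uncurry g p := by
      ext p; rfl
    rw [this]
    exact hf.1.add hg.1
  · have h1 : ∀ x : ℝ, ∫ y in (0 : ℝ)..(1 - x), (f x y + g x y) =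
        (∫ y in (0 : ℝ)..(1 - x), f x y) + ∫ y in (0 : ℝ)..(1 - x), g x y := fun x =>
      intervalIntegral.integral_add ((cont_row hf.1 x).intervalIntegrable _ _)
        ((cont_row hg.1 x).intervalIntegrable _ _)
    simp only [h1]
    rw [intervalIntegral.integral_add ((cont_inner hf.1).intervalIntegrable _ _)
      ((cont_inner hg.1).intervalIntegrable _ _),
      intervalIntegral.integral_add ((cont_diag hf.1).intervalIntegrable _ _)
      ((cont_diag hg.1).intervalIntegrable _ _), mul_add, hf.2, hg.2]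

lemma HP.zero (d : ℕ) : HP d (fun _ _ => 0) := by
  refine ⟨?_, by simp⟩
  have : Function.uncurry (fun (_ _ : ℝ) => (0 : ℂ)) = fun _ => 0 := by
    ext p; rfl
  rw [this]
  exact continuous_const

lemma HP.sum {d : ℕ} {ι : Type} (S : Finset ι) (f : ι → ℝ → ℝ → ℂ) (hf : ∀ i ∈ S, HP d (f i)) :
    HP d (fun x y => ∑ i ∈ S, f i x y) := by
  classical
  induction S using Finset.induction_on with
  | empty => simpa using HP.zero d
  | insert i S hi ih =>
    have h1 : (fun x y => ∑ j ∈ insert i S, f j x y) =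
        fun x y => f i x y + ∑ j ∈ S, f j x y := by
      ext x y
      rw [Finset.sum_insert hi]
    rw [h1]
    exact (hf i (by simp)).add (ih fun j hj => hf j (by simp [hj]))

lemma beta_rec (i j : ℕ) :
    ((i : ℝ) + j + 2) * ∫ s in (0 : ℝ)..1, (1 - s) ^ i * s ^ (j + 1) =
      ((j : ℝ) + 1) * ∫ s in (0 : ℝ)..1, (1 - s) ^ i * s ^ j := by
  have hd : ∀ s ∈ Set.uIcc (0 : ℝ) 1, HasDerivAt (fun s : ℝ => (1 - s) ^ (i + 1) * s ^ (j + 1))
      (((j : ℝ) + 1) * ((1 - s) ^ i * s ^ j) - ((i : ℝ) + j + 2) * ((1 - s) ^ i * s ^ (j + 1)))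
      s := by
    intro s _
    have h1 : HasDerivAt (fun s : ℝ => (1 - s) ^ (i + 1))
        (((i + 1 : ℕ) : ℝ) * (1 - s) ^ (i + 1 - 1) * (-1)) s := by
      have := ((hasDerivAt_id s).const_sub 1).fun_pow (i + 1)
      simpa using this
    have h2 : HasDerivAt (fun s : ℝ => s ^ (j + 1))
        (((j + 1 : ℕ) : ℝ) * s ^ (j + 1 - 1)) s := hasDerivAt_pow (j + 1) s
    have h3 := h1.fun_mul h2
    refine h3.congr_deriv ?_
    simp only [Nat.add_sub_cancel]
    push_cast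
    ring
  have hint := integral_eq_sub_of_hasDerivAt hd
    ((by fun_prop : Continuous fun s : ℝ =>
      (((j : ℝ) + 1) * ((1 - s) ^ i * s ^ j) -
        ((i : ℝ) + j + 2) * ((1 - s) ^ i * s ^ (j + 1)))).intervalIntegrable _ _)
  rw [intervalIntegral.integral_sub ((by fun_prop : Continuous fun s : ℝ =>
      ((j : ℝ) + 1) * ((1 - s) ^ i * s ^ j)).intervalIntegrable _ _)
    ((by fun_prop : Continuous fun s : ℝ =>
      ((i : ℝ) + j + 2) * ((1 - s) ^ i * s ^ (j + 1))).intervalIntegrable _ _),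
    intervalIntegral.integral_const_mul, intervalIntegral.integral_const_mul] at hint
  simp at hint
  linarith

lemma tri_mono (i j : ℕ) :
    ((i : ℝ) + j + 2) * ∫ x in (0 : ℝ)..1, ∫ y in (0 : ℝ)..(1 - x), x ^ i * y ^ j =
      ∫ s in (0 : ℝ)..1, (1 - s) ^ i * s ^ j := by
  have h1 : ∀ x : ℝ, ∫ y in (0 : ℝ)..(1 - x), x ^ i * y ^ j =
      (1 / ((j : ℝ) + 1)) * (x ^ i * (1 - x) ^ (j + 1)) := by
    intro x
    rw [intervalIntegral.integral_const_mul, integral_pow]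
    simp
    ring
  simp only [h1]
  rw [intervalIntegral.integral_const_mul]
  have h2 : ∫ x in (0 : ℝ)..1, x ^ i * (1 - x) ^ (j + 1) =
      ∫ s in (0 : ℝ)..1, (1 - s) ^ i * s ^ (j + 1) := by
    have := integral_comp_sub_left (a := 0) (b := 1)
      (fun x : ℝ => x ^ i * (1 - x) ^ (j + 1)) 1
    simp only [sub_self, sub_zero, sub_sub_cancel] at this
    exact this.symm
  rw [h2]
  have h3 := beta_rec i j
  have h4 : ((j : ℝ) + 1) ≠ 0 := by positivity
  field_simp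
  linarith

lemma HP.mono (i j d : ℕ) (hd : i + j = d) (c : ℂ) :
    HP d (fun x y => c * ((x ^ i * y ^ j : ℝ) : ℂ)) := by
  refine ⟨?_, ?_⟩
  · have : Function.uncurry (fun (x y : ℝ) => c * ((x ^ i * y ^ j : ℝ) : ℂ)) =
        fun p => c * ((p.1 ^ i * p.2 ^ j : ℝ) : ℂ) := by
      ext p; rfl
    rw [this]
    fun_prop
  · have h1 : ∀ x : ℝ, ∫ y in (0 : ℝ)..(1 - x), c * ((x ^ i * y ^ j : ℝ) : ℂ) =
        c * ((∫ y in (0 : ℝ)..(1 - x), x ^ i * y ^ j : ℝ) : ℂ) := by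
      intro x
      rw [intervalIntegral.integral_const_mul, intervalIntegral.integral_ofReal]
    simp only [h1]
    rw [intervalIntegral.integral_const_mul, intervalIntegral.integral_ofReal, intervalIntegral.integral_const_mul, intervalIntegral.integral_ofReal,
      ← tri_mono i j, ← hd]
    push_cast
    ring

lemma HP.main (ζ w : ℂ) (a b : ℕ) :
    HP (a + b) (fun x y => ((x : ℂ) + y * ζ) ^ a * ((x : ℂ) + y * w) ^ b) := by
  have h : (fun (x y : ℝ) => ((x : ℂ) + y * ζ) ^ a * ((x : ℂ) + y * w) ^ b) =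
      fun x y => ∑ p ∈ Finset.range (a + 1), ∑ q ∈ Finset.range (b + 1),
        ((a.choose p : ℂ) * (b.choose q : ℂ) * ζ ^ (a - p) * w ^ (b - q)) *
          ((x ^ (p + q) * y ^ ((a - p) + (b - q)) : ℝ) : ℂ) := by
    ext x y
    rw [add_pow, add_pow, Finset.sum_mul_sum]
    refine Finset.sum_congr rfl fun p _ => Finset.sum_congr rfl fun q _ => ?_
    push_cast
    rw [mul_pow, mul_pow, pow_add, pow_add]
    ring
  rw [h]
  refine HP.sum _ _ fun p hp => HP.sum _ _ fun q hq => HP.mono _ _ _ ?_ _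
  rw [Finset.mem_range] at hp hq
  omega

lemma step2 (ζ w : ℂ) (a b : ℕ) (hw : ζ * w = 1) (hzw : ζ ^ (a + 1) * w ^ (b + 1) = 1) :
    ((b : ℂ) + 1) * (w - ζ) *
      ∫ s in (0 : ℝ)..1, (((1 - s : ℝ) : ℂ) + s * ζ) ^ a * (((1 - s : ℝ) : ℂ) + s * w) ^ b =
    ((a : ℂ) + b + 2) * (1 - ζ) *
      ∫ s in (0 : ℝ)..1, (((1 - s : ℝ) : ℂ) + s * ζ) ^ a *
        (((1 - s : ℝ) : ℂ) + s * w) ^ (b + 1) := by
  have hz : ∀ (v : ℂ) (s : ℝ), HasDerivAt (fun s : ℝ => ((1 - s : ℝ) : ℂ) + s * v) (v - 1) s := by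
    intro v s
    have h1 : HasDerivAt (fun s : ℝ => (s : ℂ)) 1 s := Complex.ofRealCLM.hasDerivAt
    have h2 : HasDerivAt (fun s : ℝ => (1 : ℂ) + (s : ℂ) * (v - 1)) (1 * (v - 1)) s :=
      (h1.mul_const (v - 1)).const_add 1
    have h3 : (fun s : ℝ => ((1 - s : ℝ) : ℂ) + s * v) =
        fun s : ℝ => (1 : ℂ) + (s : ℂ) * (v - 1) := by
      ext s; push_cast; ring
    rw [h3]
    simpa using h2
  have hd : ∀ s ∈ Set.uIcc (0 : ℝ) 1, HasDerivAt
      (fun s : ℝ => (((1 - s : ℝ) : ℂ) + s * ζ) ^ (a + 1) *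
        (((1 - s : ℝ) : ℂ) + s * w) ^ (b + 1))
      (((b : ℂ) + 1) * (w - ζ) *
        ((((1 - s : ℝ) : ℂ) + s * ζ) ^ a * (((1 - s : ℝ) : ℂ) + s * w) ^ b) -
       ((a : ℂ) + b + 2) * (1 - ζ) * ((((1 - s : ℝ) : ℂ) + s * ζ) ^ a *
        (((1 - s : ℝ) : ℂ) + s * w) ^ (b + 1))) s := by
    intro s _
    have h3 := ((hz ζ s).fun_pow (a + 1)).fun_mul ((hz w s).fun_pow (b + 1))
    refine h3.congr_deriv ?_
    simp only [Nat.add_sub_cancel]
    push_cast
    have e : w - ζ = (1 - ζ) * ((1 : ℂ) - s + s * w) - (1 - w) * ((1 : ℂ) - s + s * ζ) := by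
      linear_combination (0 : ℂ) * hw
    set Z : ℂ := (1 : ℂ) - s + s * ζ
    set W : ℂ := (1 : ℂ) - s + s * w
    rw [e]
    ring
  have hc1 : Continuous fun s : ℝ => ((b : ℂ) + 1) * (w - ζ) *
        ((((1 - s : ℝ) : ℂ) + s * ζ) ^ a * (((1 - s : ℝ) : ℂ) + s * w) ^ b) := by fun_prop
  have hc2 : Continuous fun s : ℝ => ((a : ℂ) + b + 2) * (1 - ζ) *
    ((((1 - s : ℝ) : ℂ) + s * ζ) ^ a * (((1 - s : ℝ) : ℂ) + s * w) ^ (b + 1)) := by fun_prop
  have hint := integral_eq_sub_of_hasDerivAt hd ((hc1.sub hc2).intervalIntegrable _ _)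
  rw [intervalIntegral.integral_sub (hc1.intervalIntegrable _ _) (hc2.intervalIntegrable _ _),
    intervalIntegral.integral_const_mul, intervalIntegral.integral_const_mul] at hint
  simp only [sub_self, Complex.ofReal_zero, zero_add, Complex.ofReal_one, one_mul, hzw,
    sub_zero, zero_mul, add_zero, one_pow, mul_one] at hint
  linear_combination hint

lemma exists_prim (P : ℂ[X]) : ∃ Q : ℂ[X], derivative Q = P := by
  induction P using Polynomial.induction_on' with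
  | add p q hp hq =>
    obtain ⟨P, hP⟩ := hp
    obtain ⟨Q, hQ⟩ := hq
    exact ⟨P + Q, by rw [derivative_add, hP, hQ]⟩
  | monomial n c =>
    refine ⟨monomial (n + 1) (c / (n + 1)), ?_⟩
    rw [derivative_monomial]
    have : ((n : ℂ) + 1) ≠ 0 := by exact_mod_cast Nat.succ_ne_zero n
    simp only [Nat.add_sub_cancel]
    congr 1
    push_cast
    field_simp

lemma path_int (Q : ℂ[X]) (p q : ℂ) :
    ∫ t in (0 : ℝ)..1, (derivative Q).eval (p + t * (q - p)) * (q - p) = Q.eval q - Q.eval p := by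
  have hd : ∀ t ∈ Set.uIcc (0 : ℝ) 1, HasDerivAt (fun t : ℝ => Q.eval (p + t * (q - p)))
      ((derivative Q).eval (p + t * (q - p)) * (q - p)) t := by
    intro t _
    have h1 : HasDerivAt (fun s : ℝ => (s : ℂ)) 1 t := Complex.ofRealCLM.hasDerivAt
    have h2 : HasDerivAt (fun s : ℝ => p + (s : ℂ) * (q - p)) (q - p) t := by
      have := (h1.mul_const (q - p)).const_add p
      simpa using this
    have h3 := Q.hasDerivAt (p + t * (q - p))
    exact HasDerivAt.comp t h3 h2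
  rw [integral_eq_sub_of_hasDerivAt hd]
  · simp
  · apply Continuous.intervalIntegrable
    fun_prop

lemma step3 (ζ w : ℂ) (a b : ℕ) (hw : ζ * w = 1) (hzw : ζ ^ (a + 1) * w ^ (b + 1) = 1) :
    (1 - ζ) * ∫ s in (0 : ℝ)..1, (((1 - s : ℝ) : ℂ) + s * ζ) ^ a *
        (((1 - s : ℝ) : ℂ) + s * w) ^ (b + 1) =
    (∫ t in (0 : ℝ)..1, (t : ℂ) ^ a * (1 + w * ((1 - t : ℝ) : ℂ)) ^ (b + 1)) -
      ∫ t in (0 : ℝ)..1, (t : ℂ) ^ a * (1 + ζ * ((1 - t : ℝ) : ℂ)) ^ (b + 1) := by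
  obtain ⟨Q, hQ⟩ := exists_prim (X ^ a * (1 + C w * (1 - X)) ^ (b + 1))
  have h1 := path_int Q 1 ζ
  have h2 := path_int Q 0 1
  have h3 := path_int Q 0 ζ
  rw [hQ] at h1 h2 h3
  have e1 : ∫ t in (0 : ℝ)..1, (X ^ a * (1 + C w * (1 - X)) ^ (b + 1) : ℂ[X]).eval
      (1 + t * (ζ - 1)) * (ζ - 1) = - ((1 - ζ) * ∫ s in (0 : ℝ)..1,
        (((1 - s : ℝ) : ℂ) + s * ζ) ^ a * (((1 - s : ℝ) : ℂ) + s * w) ^ (b + 1)) := by
    rw [← neg_mul, ← intervalIntegral.integral_const_mul]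
    refine intervalIntegral.integral_congr fun s _ => ?_
    simp only [eval_mul, eval_pow, eval_X, eval_add, eval_one, eval_C, eval_sub]
    have f1 : (1 : ℂ) + s * (ζ - 1) = ((1 - s : ℝ) : ℂ) + s * ζ := by push_cast; ring
    have f2 : (1 : ℂ) + w * (1 - (1 + s * (ζ - 1))) = ((1 - s : ℝ) : ℂ) + s * w := by
      push_cast
      linear_combination (-(s : ℂ)) * hw
    rw [f2, f1]
    ring
  have e2 : ∫ t in (0 : ℝ)..1, (X ^ a * (1 + C w * (1 - X)) ^ (b + 1) : ℂ[X]).eval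
      (0 + (t : ℂ) * (1 - 0)) * (1 - 0) =
      ∫ t in (0 : ℝ)..1, (t : ℂ) ^ a * (1 + w * ((1 - t : ℝ) : ℂ)) ^ (b + 1) := by
    refine intervalIntegral.integral_congr fun s _ => ?_
    simp only [eval_mul, eval_pow, eval_X, eval_add, eval_one, eval_C, eval_sub]
    push_cast
    ring
  have e3 : ∫ t in (0 : ℝ)..1, (X ^ a * (1 + C w * (1 - X)) ^ (b + 1) : ℂ[X]).eval
      (0 + t * (ζ - 0)) * (ζ - 0) =
      ∫ t in (0 : ℝ)..1, (t : ℂ) ^ a * (1 + ζ * ((1 - t : ℝ) : ℂ)) ^ (b + 1) := by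
    refine intervalIntegral.integral_congr fun s _ => ?_
    simp only [eval_mul, eval_pow, eval_X, eval_add, eval_one, eval_C, eval_sub]
    have f1 : (1 : ℂ) + w * (1 - (0 + s * (ζ - 0))) = w * (1 + ζ * ((1 - s : ℝ) : ℂ)) := by
      push_cast
      linear_combination (-1 : ℂ) * hw
    rw [f1]
    rw [mul_pow w]
    have f2 : (0 + (s : ℂ) * (ζ - 0)) ^ a * (w ^ (b + 1) *
        (1 + ζ * ((1 - s : ℝ) : ℂ)) ^ (b + 1)) * (ζ - 0) =
        (ζ ^ (a + 1) * w ^ (b + 1)) * ((s : ℂ) ^ a * (1 + ζ * ((1 - s : ℝ) : ℂ)) ^ (b + 1)) := by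
      rw [sub_zero, zero_add, mul_pow]
      ring
    rw [f2, hzw, one_mul]
  rw [e1] at h1
  rw [e2] at h2
  rw [e3] at h3
  rw [h2, h3]
  linear_combination (-1 : ℂ) * h1

lemma adm_facts {N : ℕ} {ζ : ℂ} (h : Adm N ζ) : ζ * conj ζ = 1 ∧ ζ ^ N = 1 := by
  rcases h with ⟨hN, hz⟩ | ⟨hN, hz⟩
  · have h3 : (√3 : ℝ) ^ 2 = 3 := Real.sq_sqrt (by norm_num)
    have hsq : ζ * ζ = -1 - ζ := by
      rw [hz]
      apply Complex.ext
      · simp [Complex.mul_re]
        nlinarith [h3]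
      · simp [Complex.mul_im]
        ring
    constructor
    · rw [hz]
      apply Complex.ext
      · simp [Complex.mul_re]
        nlinarith [h3]
      · simp [Complex.mul_im]
        ring
    · rw [hN]
      linear_combination (ζ - 1) * hsq
  · rw [hN, hz]
    refine ⟨?_, Complex.I_pow_four⟩
    simp

theorem taskCalc : TaskCalc := by
  intro N ζ hA a b hab
  obtain ⟨hw, hN⟩ := adm_facts hA
  set w : ℂ := conj ζ with hwdef
  have hpow : ζ ^ a = ζ ^ b := by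
    rw [pow_eq_pow_mod a hN, pow_eq_pow_mod b hN]
    have : a % N = b % N := hab
    rw [this]
  have hzw : ζ ^ (a + 1) * w ^ (b + 1) = 1 := by
    rw [pow_succ, hpow, ← pow_succ, ← mul_pow, hw, one_pow]
  have h1 := (HP.main ζ w a b).2
  have h2 := step2 ζ w a b hw hzw
  have h3 := step3 ζ w a b hw hzw
  have hI : ∫ x in (0 : ℝ)..1, ∫ y in (0 : ℝ)..(1 - x),
        ((x : ℂ) + y * ζ) ^ a * (conj ((x : ℂ) + y * ζ)) ^ b =
      ∫ x in (0 : ℝ)..1, ∫ y in (0 : ℝ)..(1 - x),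
        ((x : ℂ) + y * ζ) ^ a * ((x : ℂ) + y * w) ^ b := by
    refine intervalIntegral.integral_congr fun x _ => intervalIntegral.integral_congr fun y _ => ?_
    simp only [map_add, map_mul, Complex.conj_ofReal]
    rfl
  rw [hI]
  set I := ∫ x in (0 : ℝ)..1, ∫ y in (0 : ℝ)..(1 - x),
        ((x : ℂ) + y * ζ) ^ a * ((x : ℂ) + y * w) ^ b with hIdef
  set J := ∫ s in (0 : ℝ)..1, (((1 - s : ℝ) : ℂ) + s * ζ) ^ a *
    (((1 - s : ℝ) : ℂ) + s * w) ^ b with hJdef
  set K := ∫ s in (0 : ℝ)..1, (((1 - s : ℝ) : ℂ) + s * ζ) ^ a *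
        (((1 - s : ℝ) : ℂ) + s * w) ^ (b + 1) with hKdef
  have h1' : ((a : ℂ) + b + 2) * I = J := by
    have : (((a + b : ℕ) : ℂ) + 2) = (a : ℂ) + b + 2 := by push_cast; ring
    rw [← this]
    exact h1
  have hne : ((a : ℂ) + b + 2) ≠ 0 := by
    have : ((a + b + 2 : ℕ) : ℂ) ≠ 0 := by exact_mod_cast Nat.succ_ne_zero (a + b + 1)
    push_cast at this
    exact this
  have h4 : ((b : ℂ) + 1) * (w - ζ) * I = (1 - ζ) * K := by
    apply mul_left_cancel₀ hne
    rw [← mul_assoc ((a : ℂ) + b + 2) (1 - ζ) K, ← h2, ← h1']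
    ring
  rw [h4, h3]
  have hU : ((∫ t in (0 : ℝ)..1, t ^ a * (U ζ 0 (b + 1)).eval (1 - t) : ℝ) : ℂ) =
      ∫ t in (0 : ℝ)..1, ((t ^ a * (U ζ 0 (b + 1)).eval (1 - t) : ℝ) : ℂ) :=
    (intervalIntegral.integral_ofReal).symm
  rw [hU, ← intervalIntegral.integral_const_mul, ← intervalIntegral.integral_sub]
  · refine intervalIntegral.integral_congr fun t _ => ?_
    simp only [U_eval, pow_zero, one_mul]
    have hc : (1 + w * ((1 - t : ℝ) : ℂ)) ^ (b + 1) =
        conj ((1 + ζ * ((1 - t : ℝ) : ℂ)) ^ (b + 1)) := by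
      simp only [map_pow, map_add, map_mul, map_one, Complex.conj_ofReal]
      rfl
    rw [hc]
    set A := (1 + ζ * ((1 - t : ℝ) : ℂ)) ^ (b + 1)
    have hA2 : conj A - A = -2 * Complex.I * (A.im : ℂ) := by
      apply Complex.ext
      · simp
      · simp
        ring
    push_cast
    linear_combination ((t : ℂ) ^ a) * hA2
  · apply Continuous.intervalIntegrable
    fun_prop
  · apply Continuous.intervalIntegrable
    fun_prop

end Pool.Agent.H352.Berg
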